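import Pool.Agent.L7h89.NH.Stm

set_option linter.all false

namespace Pool.Agent.L7h89.NH

open Polynomial
open scoped LinearAlgebra.Projectivization Matrix Classical

section exa

variable {F : Type} [Field F]

theorem on_mk (v : Fin 3 → F) (hv : v ≠ 0) (l : Pt F) :
    On (Projectivization.mk F v hv) l ↔ v ⬝ᵥ l.rep = 0 := by
  obtain ⟨a, ha⟩ := Projectivization.exists_smul_eq_mk_rep F v hv
  unfold On
  rw [← ha, Units.smul_def, smul_dotProduct, smul_eq_mul]
  constructor
  · intro h
    rcases mul_eq_zero.mp h with h | h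
    · exact absurd h a.ne_zero
    · exact h
  · intro h; rw [h, mul_zero]

theorem on_mk' (v : Fin 3 → F) (hv : v ≠ 0) (p : Pt F) :
    On p (Projectivization.mk F v hv) ↔ p.rep ⬝ᵥ v = 0 := by
  obtain ⟨a, ha⟩ := Projectivization.exists_smul_eq_mk_rep F v hv
  unfold On
  rw [← ha, Units.smul_def, dotProduct_smul, smul_eq_mul]
  constructor
  · intro h
    rcases mul_eq_zero.mp h with h | h
    · exact absurd h a.ne_zero
    · exact h
  · intro h; rw [h, mul_zero]

theorem pv_ne (x : F) : (![x, x ^ 2, 1] : Fin 3 → F) ≠ 0 := by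
  intro h
  have := congrFun h 2
  simp at this

theorem qv_ne : (![0, -1, 1] : Fin 3 → F) ≠ 0 := by
  intro h
  have := congrFun h 2
  simp at this

theorem lv_ne (m : F) : (![m, -1, -1] : Fin 3 → F) ≠ 0 := by
  intro h
  have := congrFun h 2
  simp at this

noncomputable def pt (x : F) : Pt F := Projectivization.mk F ![x, x ^ 2, 1] (pv_ne x)
noncomputable def qt : Pt F := Projectivization.mk F ![0, -1, 1] qv_ne
noncomputable def lt (m : F) : Pt F := Projectivization.mk F ![m, -1, -1] (lv_ne m)

theorem on_pt (x : F) (l : Pt F) : On (pt x) l ↔ l.rep 1 * x ^ 2 + l.rep 0 * x + l.rep 2 = 0 := by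
  unfold pt
  rw [on_mk]
  simp only [dotProduct, Fin.sum_univ_three, Matrix.cons_val_zero, Matrix.cons_val_one,
    Matrix.cons_val]
  constructor <;> intro h <;> linear_combination h

theorem on_qt (l : Pt F) : On (qt : Pt F) l ↔ l.rep 2 = l.rep 1 := by
  unfold qt
  rw [on_mk]
  simp only [dotProduct, Fin.sum_univ_three, Matrix.cons_val_zero, Matrix.cons_val_one,
    Matrix.cons_val]
  constructor <;> intro h <;> linear_combination h

theorem on_pt_lt (x m : F) : On (pt x) (lt m) ↔ m * x - x ^ 2 - 1 = 0 := by
  unfold pt lt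
  rw [on_mk]
  obtain ⟨a, ha⟩ := Projectivization.exists_smul_eq_mk_rep F _ (lv_ne m)
  rw [← ha, Units.smul_def, dotProduct_smul, smul_eq_mul]
  simp only [dotProduct, Fin.sum_univ_three, Matrix.cons_val_zero, Matrix.cons_val_one,
    Matrix.cons_val]
  constructor
  · intro h
    rcases mul_eq_zero.mp h with h | h
    · exact absurd h a.ne_zero
    · linear_combination h
  · intro h
    have : (x * m + x ^ 2 * -1 + 1 * -1 : F) = 0 := by linear_combination h
    rw [this, mul_zero]

theorem on_qt_lt (m : F) : On (qt : Pt F) (lt m) := by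
  unfold qt lt
  rw [on_mk]
  obtain ⟨a, ha⟩ := Projectivization.exists_smul_eq_mk_rep F _ (lv_ne m)
  rw [← ha, Units.smul_def, dotProduct_smul, smul_eq_mul]
  simp [dotProduct, Fin.sum_univ_three]

theorem pt_inj {x y : F} (h : pt x = pt y) : x = y := by
  unfold pt at h
  rw [Projectivization.mk_eq_mk_iff'] at h
  obtain ⟨a, ha⟩ := h
  have h2 := congrFun ha 2
  have h0 := congrFun ha 0
  simp at h2 h0
  rw [h2, one_mul] at h0
  exact h0.symm

theorem pt_ne_qt (x : F) : pt x ≠ qt := by
  intro h
  unfold pt qt at h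
  rw [Projectivization.mk_eq_mk_iff'] at h
  obtain ⟨a, ha⟩ := h
  have h2 := congrFun ha 2
  have h0 := congrFun ha 0
  have h1 := congrFun ha 1
  simp at h2 h0 h1
  rw [h2] at h1
  rw [← h0] at h1
  simp at h1

theorem rep_ne (l : Pt F) : ¬ (l.rep 0 = 0 ∧ l.rep 1 = 0 ∧ l.rep 2 = 0) := by
  rintro ⟨h0, h1, h2⟩
  apply l.rep_nonzero
  funext i
  fin_cases i
  · exact h0
  · exact h1
  · exact h2

/-- three parameters on one line: two agree -/
theorem three_pt {x y z : F} (l : Pt F) (hx : On (pt x) l) (hy : On (pt y) l) (hz : On (pt z) l) :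
    x = y ∨ x = z ∨ y = z := by
  rw [on_pt] at hx hy hz
  by_contra hc
  push Not at hc
  obtain ⟨hxy, hxz, hyz⟩ := hc
  have h1 : l.rep 1 * (x + y) + l.rep 0 = 0 := by
    have : (x - y) * (l.rep 1 * (x + y) + l.rep 0) = 0 := by linear_combination hx - hy
    rcases mul_eq_zero.mp this with h | h
    · exact absurd (sub_eq_zero.mp h) hxy
    · exact h
  have h2 : l.rep 1 * (x + z) + l.rep 0 = 0 := by
    have : (x - z) * (l.rep 1 * (x + z) + l.rep 0) = 0 := by linear_combination hx - hz
    rcases mul_eq_zero.mp this with h | h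
    · exact absurd (sub_eq_zero.mp h) hxz
    · exact h
  have h3 : l.rep 1 = 0 := by
    have : (y - z) * l.rep 1 = 0 := by linear_combination h1 - h2
    rcases mul_eq_zero.mp this with h | h
    · exact absurd (sub_eq_zero.mp h) hyz
    · exact h
  have h4 : l.rep 0 = 0 := by rw [h3] at h1; simpa using h1
  have h5 : l.rep 2 = 0 := by rw [h3, h4] at hx; simpa using hx
  exact rep_ne l ⟨h4, h3, h5⟩

variable [Fintype F]

noncomputable def SE : Finset (Pt F) := insert qt (Finset.univ.image (fun x : F => pt x))

theorem qt_notMem : (qt : Pt F) ∉ (Finset.univ.image (fun x : F => pt x)) := by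
  intro h
  simp only [Finset.mem_image, Finset.mem_univ, true_and] at h
  obtain ⟨x, hx⟩ := h
  exact pt_ne_qt x hx

theorem SE_card : (SE : Finset (Pt F)).card = Fintype.card F + 1 := by
  unfold SE
  rw [Finset.card_insert_of_notMem qt_notMem, Finset.card_image_of_injective _ (fun x y h => pt_inj h),
    Finset.card_univ]

/-- parameters on a line -/
noncomputable def par (l : Pt F) : Finset F := Finset.univ.filter (fun x => On (pt x) l)

theorem par_card (l : Pt F) : (par l).card ≤ 2 := by
  by_contra hc
  push Not at hc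
  obtain ⟨x, y, z, hx, hy, hz, hxy, hxz, hyz⟩ := Finset.two_lt_card_iff.mp hc
  simp only [par, Finset.mem_filter, Finset.mem_univ, true_and] at hx hy hz
  rcases three_pt l hx hy hz with h | h | h
  · exact hxy h
  · exact hxz h
  · exact hyz h

theorem deg_SE (l : Pt F) : deg (SE : Finset (Pt F)) l = (par l).card + (if On (qt : Pt F) l then 1 else 0) := by
  unfold deg meet SE
  rw [Finset.filter_insert]
  have e : ((Finset.univ.image (fun x : F => pt x)).filter (fun p => On p l)).card = (par l).card := by
    rw [Finset.filter_image, Finset.card_image_of_injective _ (fun x y h => pt_inj h)]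
    rfl
  split_ifs with h
  · rw [Finset.card_insert_of_notMem, e]
    intro hq
    exact qt_notMem (Finset.mem_filter.mp hq).1
  · rw [e, add_zero]

theorem wt_SE : wt (SE : Finset (Pt F)) = (bad (SE : Finset (Pt F))).card := by
  unfold wt bad
  rw [Finset.card_filter]
  apply Finset.sum_congr rfl
  intro l _
  have h1 : deg (SE : Finset (Pt F)) l ≤ 3 := by
    rw [deg_SE]
    have := par_card l
    split_ifs <;> omega
  split_ifs with h
  · have : deg (SE : Finset (Pt F)) l = 3 := by omega
    rw [this]; rfl
  · apply Nat.choose_eq_zero_of_lt; omega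

theorem bad_iff (l : Pt F) : l ∈ bad (SE : Finset (Pt F)) ↔ (par l).card = 2 ∧ On (qt : Pt F) l := by
  unfold bad
  simp only [Finset.mem_filter, Finset.mem_univ, true_and]
  rw [deg_SE]
  have := par_card l
  constructor
  · intro h
    split_ifs at h with h1
    · exact ⟨by omega, h1⟩
    · omega
  · rintro ⟨h1, h2⟩
    rw [if_pos h2, h1]

noncomputable def TT : Finset F := Finset.univ.filter (fun x => x ≠ 0 ∧ x ≠ 1 ∧ x ≠ -1)

theorem TT_card (h2 : (2 : F) ≠ 0) : (TT : Finset F).card + 3 = Fintype.card F := by
  have e : (TT : Finset F) = Finset.univ \ {0, 1, -1} := by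
    ext x
    simp [TT]
  have h1 : (1 : F) ≠ -1 := by
    intro h
    apply h2
    linear_combination h
  have hc : ({0, 1, -1} : Finset F).card = 3 := by
    rw [Finset.card_insert_of_notMem, Finset.card_insert_of_notMem, Finset.card_singleton]
    · simpa using h1
    · simp
  rw [e, Finset.card_sdiff_of_subset (Finset.subset_univ _), hc, Finset.card_univ]
  have : ({0, 1, -1} : Finset F).card ≤ Fintype.card F := Finset.card_le_univ _
  omega

theorem fib_bad (h2 : (2 : F) ≠ 0) (l : Pt F) (hl : l ∈ bad (SE : Finset (Pt F))) :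
    (TT : Finset F).filter (fun x => lt (x + x⁻¹) = l) = par l := by
  rw [bad_iff] at hl
  obtain ⟨hc, hq⟩ := hl
  ext x
  simp only [Finset.mem_filter, par, Finset.mem_univ, true_and, TT]
  constructor
  · rintro ⟨⟨h0, _, _⟩, rfl⟩
    rw [on_pt_lt]
    field_simp
    ring
  · intro hx
    -- the other parameter
    obtain ⟨y, hy, hxy⟩ : ∃ y ∈ par l, y ≠ x := by
      apply Finset.exists_mem_ne
      omega
    simp only [par, Finset.mem_filter, Finset.mem_univ, true_and] at hy
    rw [on_qt] at hq
    have hx' := hx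
    rw [on_pt] at hx' hy
    rw [hq] at hx' hy
    have hs : l.rep 1 * (x + y) + l.rep 0 = 0 := by
      have : (x - y) * (l.rep 1 * (x + y) + l.rep 0) = 0 := by linear_combination hx' - hy
      rcases mul_eq_zero.mp this with h | h
      · exact absurd (sub_eq_zero.mp h).symm hxy
      · exact h
    have hb : l.rep 1 ≠ 0 := by
      intro hb
      have h0 : l.rep 0 = 0 := by rw [hb] at hs; simpa using hs
      exact rep_ne l ⟨h0, hb, by rw [hq, hb]⟩
    have hx1 : l.rep 1 * (1 - x * y) = 0 := by linear_combination hx' - x * hs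
    have hxy1 : x * y = 1 := by
      rcases mul_eq_zero.mp hx1 with h | h
      · exact absurd h hb
      · linear_combination -h
    have hx0 : x ≠ 0 := by rintro rfl; simp at hxy1
    have hyi : y = x⁻¹ := eq_inv_of_mul_eq_one_right hxy1
    refine ⟨⟨hx0, ?_, ?_⟩, ?_⟩
    · rintro rfl
      rw [one_mul] at hxy1
      exact hxy hxy1
    · rintro rfl
      apply hxy
      linear_combination -hxy1
    · have h3 : l = Projectivization.mk F l.rep l.rep_nonzero := (Projectivization.mk_rep l).symm
      rw [h3]
      unfold lt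
      rw [Projectivization.mk_eq_mk_iff']
      refine ⟨-(l.rep 1)⁻¹, ?_⟩
      funext i
      fin_cases i
      · simp only [Fin.zero_eta, Pi.smul_apply, smul_eq_mul, Matrix.cons_val_zero]
        rw [← hyi]
        have : l.rep 0 = - (l.rep 1 * (x + y)) := by linear_combination hs
        rw [this]
        field_simp
      · simp only [Fin.mk_one, Pi.smul_apply, smul_eq_mul, Matrix.cons_val_one,
          Matrix.cons_val_zero]
        field_simp
      · simp only [Fin.reduceFinMk, Pi.smul_apply, smul_eq_mul, Matrix.cons_val]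
        rw [hq]
        field_simp

theorem lt_bad (x : F) (hx : x ∈ (TT : Finset F)) : lt (x + x⁻¹) ∈ bad (SE : Finset (Pt F)) := by
  simp only [TT, Finset.mem_filter, Finset.mem_univ, true_and] at hx
  obtain ⟨h0, h1, hm⟩ := hx
  rw [bad_iff]
  refine ⟨?_, on_qt_lt _⟩
  apply le_antisymm (par_card _)
  have h : ({x, x⁻¹} : Finset F) ⊆ par (lt (x + x⁻¹)) := by
    intro y hy
    simp only [Finset.mem_insert, Finset.mem_singleton] at hy
    simp only [par, Finset.mem_filter, Finset.mem_univ, true_and, on_pt_lt]
    rcases hy with rfl | rfl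
    · field_simp; ring
    · field_simp; ring
  have hc : ({x, x⁻¹} : Finset F).card = 2 := by
    apply Finset.card_pair
    intro h
    have : (x - 1) * (x + 1) = 0 := by
      have : x * x = 1 := by
        nth_rewrite 2 [h]
        exact mul_inv_cancel₀ h0
      linear_combination this
    rcases mul_eq_zero.mp this with h | h
    · exact h1 (sub_eq_zero.mp h)
    · exact hm (eq_neg_of_add_eq_zero_left h)
  rw [← hc]
  exact Finset.card_le_card h

end exa

theorem s_EXA : S_EXA := by
  intro F _ _ hodd
  refine ⟨SE, SE_card, ?_⟩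
  have h2 : (2 : F) ≠ 0 := by
    intro h
    have : ringChar F ∣ 2 := (ringChar.spec F 2).mp (by exact_mod_cast h)
    have hp : (ringChar F).Prime := by
      haveI := ringChar.charP F
      exact CharP.char_is_prime F (ringChar F)
    have hr : ringChar F = 2 := (Nat.prime_dvd_prime_iff_eq hp Nat.prime_two).mp this
    haveI : CharP F 2 := by rw [← hr]; exact ringChar.charP F
    have := FiniteField.even_card_iff_char_two (F := F)
    have h3 := this.mp hr
    obtain ⟨k, hk⟩ := hodd
    omega
  rw [wt_SE]
  have hT := TT_card (F := F) h2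
  have hs : (TT : Finset F).card = ∑ l ∈ bad (SE : Finset (Pt F)), ((TT : Finset F).filter (fun x => lt (x + x⁻¹) = l)).card :=
    Finset.card_eq_sum_card_fiberwise (fun x hx => lt_bad x hx)
  have hs2 : ∑ l ∈ bad (SE : Finset (Pt F)), ((TT : Finset F).filter (fun x => lt (x + x⁻¹) = l)).card
      = ∑ l ∈ bad (SE : Finset (Pt F)), 2 := by
    apply Finset.sum_congr rfl
    intro l hl
    rw [fib_bad h2 l hl]
    exact ((bad_iff l).mp hl).1
  rw [hs2, Finset.sum_const, smul_eq_mul] at hs
  omega

end Pool.Agent.L7h89.NH
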