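import Pool.Agent.L7h89.NH.Stm

set_option linter.all false

namespace Pool.Agent.L7h89.NH

open Polynomial
open scoped LinearAlgebra.Projectivization Matrix Classical

theorem bad_nonempty {F : Type} [Field F] [Finite F] {S : Finset (Pt F)} (h : wt S ≠ 0) :
    (bad S).Nonempty := by
  by_contra hne
  rw [Finset.not_nonempty_iff_eq_empty] at hne
  apply h
  unfold wt
  apply Finset.sum_eq_zero
  intro l _
  have hl : l ∉ bad S := by rw [hne]; simp
  have : ¬ (3 ≤ deg S l) := by
    intro h3
    exact hl (by unfold bad; simp [h3])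
  apply Nat.choose_eq_zero_of_lt
  omega

theorem s_LOW (hNCV : S_NCV) (hCCA : S_CCA) (hCCB : S_CCB) (hCCC : S_CCC) (hTRF : S_TRF) :
    S_LOW := by
  intro F _ _ S hodd hS hw
  have hne := bad_nonempty hw
  have key : ¬ (2 * wt S + 5 ≤ Fintype.card F) := by
    by_cases hc : ∀ R : Pt F, ∃ l ∈ bad S, ¬ On R l
    · exact hNCV F S hS hc
    · push Not at hc
      obtain ⟨R, hR⟩ := hc
      by_cases hRS : R ∈ S
      · exact hCCA F S R hS hRS hne hR
      · by_cases h4 : ∃ M ∈ bad S, 4 ≤ deg S M
        · obtain ⟨M, hM, hM4⟩ := h4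
          exact hCCB F S R M hS hRS hR hM hM4
        · push Not at h4
          have h3 : ∀ l ∈ bad S, deg S l = 3 := by
            intro l hl
            have h1 := h4 l hl
            have h2 : 3 ≤ deg S l := by
              have := hl
              unfold bad at this
              simpa using this
            omega
          by_cases h30 : (3 : F) = 0
          · exact hTRF F S R h30 hS hRS hne hR h3
          · exact hCCC F S R h30 hS hRS hne hR h3
  obtain ⟨k, hk⟩ := hodd
  omega

theorem s_FIN (hCNT : S_CNT) (hLOW : S_LOW) (hEXA : S_EXA) (hEXT : S_EXT) : S_FIN := by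
  intro F _ _ hodd
  obtain ⟨k, hk⟩ := hodd
  have hq1 : 1 < Fintype.card F := Fintype.one_lt_card
  by_cases h3 : Fintype.card F = 3
  · rw [if_pos h3, h3]
    constructor
    · obtain ⟨S, hS, hw⟩ := hEXT F h3
      refine ⟨S, by omega, ?_, by norm_num⟩
      have := hCNT F S (by omega)
      rw [h3, hw] at this
      omega
    · rintro n ⟨S, hS, hn, hlt⟩
      norm_num at hlt
      omega
  · rw [if_neg h3]
    have hq5 : 5 ≤ Fintype.card F := by omega
    generalize hq : Fintype.card F = q at *
    have e1 : q * (q - 1) = 2 * (k * (2 * k + 1)) := by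
      rw [hk]; simp; ring
    have e2 : q ^ 2 - 2 * q + 3 = 2 * (2 * k ^ 2 + 1) := by
      rw [hk]
      have : (2 * k + 1) ^ 2 = 2 * (2 * k + 1) + (4 * k ^ 2 - 1) := by
        have h1 : 1 ≤ k := by omega
        have h2 : 1 ≤ 4 * k ^ 2 := by nlinarith
        zify [h2]
        ring
      have h1 : 1 ≤ k := by omega
      have h2 : 1 ≤ 4 * k ^ 2 := by nlinarith
      omega
    have e3 : q * (q - 1) / 2 = k * (2 * k + 1) := by rw [e1]; simp
    have e4 : (q ^ 2 - 2 * q + 3) / 2 = 2 * k ^ 2 + 1 := by rw [e2]; simp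
    rw [e3, e4]
    constructor
    · obtain ⟨S, hS, hw⟩ := hEXA F ⟨k, by omega⟩
      refine ⟨S, by omega, ?_, ?_⟩
      · have := hCNT F S (by omega)
        rw [hq, e1] at this
        rw [hq, hk] at hw
        have hw' : wt S + 1 = k := by omega
        have : u0 S + wt S = k * (2 * k + 1) := by omega
        nlinarith
      · nlinarith
    · rintro n ⟨S, hS, hn, hlt⟩
      have hc := hCNT F S (by omega)
      rw [hq, e1] at hc
      have hc' : u0 S + wt S = k * (2 * k + 1) := by omega
      have hw : wt S ≠ 0 := by omega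
      have hl := hLOW F S ⟨k, by omega⟩ (by omega) hw
      rw [hq, hk] at hl
      have : k ≤ wt S + 1 := by omega
      nlinarith

end Pool.Agent.L7h89.NH
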