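import Mathlib

/-!
Project NH: the second largest number of lines missed by a set of q + 1 points
of PG(2,q), q odd (problem MP_8b6d0b_co).  Statements of all parts, with proofs in the docstrings.
Points and lines of PG(2,q) are both elements of Projectivization F (Fin 3 → F); p lies on l when
p.rep ⬝ᵥ l.rep = 0.  Write q for Fintype.card F.
-/

set_option linter.all false
set_option autoImplicit false

namespace Pool.Agent.L7h89.NH

open Polynomial
open scoped LinearAlgebra.Projectivization Matrix Classical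

/-- points of the plane, and also its lines (the line l is the set of points p with On p l) -/
abbrev Pt (F : Type) [Field F] : Type := ℙ F (Fin 3 → F)

noncomputable instance ptFintype (F : Type) [Field F] [Finite F] : Fintype (Pt F) :=
  Fintype.ofFinite _

section defs

variable {F : Type} [Field F]

/-- the point p lies on the line l -/
def On (p l : Pt F) : Prop := p.rep ⬝ᵥ l.rep = 0

/-- the points of S on the line l -/
noncomputable def meet (S : Finset (Pt F)) (l : Pt F) : Finset (Pt F) :=
  S.filter (fun p => On p l)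

/-- the number of points of S on the line l -/
noncomputable def deg (S : Finset (Pt F)) (l : Pt F) : ℕ := (meet S l).card

/-- the number of members of the multiset P on the line l -/
noncomputable def psi (P : Multiset (Pt F)) (l : Pt F) : ℕ :=
  (P.filter (fun p => On p l)).card

/-- the number of lines that contain no point of S -/
noncomputable def u0 (S : Finset (Pt F)) : ℕ := Nat.card {l : Pt F // ∀ p ∈ S, ¬ On p l}

/-- the sum of binom(i - 1, 2) over all lines, where i is the number of points of S on the line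
(lines with i = 0, 1, 2 count 0) -/
noncomputable def wt [Finite F] (S : Finset (Pt F)) : ℕ := ∑ l : Pt F, (deg S l - 1).choose 2

/-- the lines with at least three points of S -/
noncomputable def bad [Finite F] (S : Finset (Pt F)) : Finset (Pt F) :=
  Finset.univ.filter (fun l => 3 ≤ deg S l)

theorem exists_dv (l : Pt F) : ∃ d : Fin 3 → F, d ⬝ᵥ l.rep = 1 := by
  have h := l.rep_nonzero
  obtain ⟨i, hi⟩ := Function.ne_iff.mp h
  refine ⟨Pi.single i (l.rep i)⁻¹, ?_⟩
  rw [single_dotProduct]
  exact inv_mul_cancel₀ hi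

/-- a vector d with d ⬝ᵥ l.rep = 1 -/
noncomputable def dv (l : Pt F) : Fin 3 → F := Classical.choose (exists_dv l)

/-- for points x, y on l: x.rep × y.rep = lam l x y • l.rep (see S_LAM) -/
noncomputable def lam (l x y : Pt F) : F := dv l ⬝ᵥ (crossProduct x.rep y.rep)

/-- the weight of the flag (l, x) -/
noncomputable def W (S : Finset (Pt F)) (P : Multiset (Pt F)) (l x : Pt F) : F :=
  ((P.filter (fun p => ¬ On p l)).map (fun p => p.rep ⬝ᵥ l.rep)).prod
    * ((P.filter (fun p => On p l)).map (fun p => lam l x p)).prod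
    / ((∏ s ∈ S.filter (fun s => ¬ On s l), s.rep ⬝ᵥ l.rep) ^ 3
        * (∏ y ∈ (meet S l).erase x, lam l x y) ^ 3)

/-- the value of the flag (l, x): the weight if l has i ≥ 2 points of S and exactly 3 (i - 2)
points of P, else 0 -/
noncomputable def val (S : Finset (Pt F)) (P : Multiset (Pt F)) (l x : Pt F) : F :=
  if 2 ≤ deg S l ∧ psi P l = 3 * (deg S l - 2) then W S P l x else 0

end defs

/-- BAS: basic facts.  On is symmetric (dotProduct_comm); two points are on exactly one line and
dually; q + 1 lines through a point, q + 1 points on a line, q^2 + q + 1 points; On for mk.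
Use Mathlib: Projectivization.orthogonal, orthogonal_mk, Configuration.ofField (a
Configuration.ProjectivePlane), Configuration.ProjectivePlane.card_points, pointCount_eq,
lineCount_eq, Projectivization.card (or count directly). On p l ↔ p.orthogonal l. -/
def S_BAS : Prop := ∀ (F : Type) [Field F] [Fintype F],
  (∀ p l : Pt F, On p l ↔ On l p) ∧
  (∀ p p' : Pt F, p ≠ p' → ∃ l : Pt F, On p l ∧ On p' l ∧ ∀ m, On p m → On p' m → m = l) ∧
  (∀ l l' : Pt F, l ≠ l' → ∃ p : Pt F, On p l ∧ On p l' ∧ ∀ r, On r l → On r l' → r = p) ∧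
  (∀ p : Pt F, (Finset.univ.filter (fun l : Pt F => On p l)).card = Fintype.card F + 1) ∧
  (∀ l : Pt F, (Finset.univ.filter (fun p : Pt F => On p l)).card = Fintype.card F + 1) ∧
  (Fintype.card (Pt F) = Fintype.card F ^ 2 + Fintype.card F + 1) ∧
  (∀ (v u : Fin 3 → F) (hv : v ≠ 0) (hu : u ≠ 0),
    On (Projectivization.mk F v hv) (Projectivization.mk F u hu) ↔ v ⬝ᵥ u = 0)

/-- LAM: properties of lam.  For x, y on l the vector x.rep × y.rep is orthogonal to x.rep and
y.rep; if x ≠ y these are independent and l.rep is orthogonal to both, so the cross product is a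
multiple of l.rep, the factor is found by applying dv l; it is 0 iff x.rep, y.rep are dependent iff
x = y (Projectivization.mk_eq_mk_iff_crossProduct_eq_zero, mk_rep).  Last part (Pluecker): the
reps of x, y, z lie in the 2-dimensional space l.rep^⊥ and
lam l y z • x.rep + lam l z x • y.rep + lam l x y • z.rep = 0
(for vectors of that plane; e.g. dot with everything: a × (b × c) identities), then take the cross
product with r.rep and apply dv l. -/
def S_LAM : Prop := ∀ (F : Type) [Field F] (l : Pt F),
  (∀ x y : Pt F, On x l → On y l → crossProduct x.rep y.rep = lam l x y • l.rep) ∧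
  (∀ x y : Pt F, lam l y x = - lam l x y) ∧
  (∀ x y : Pt F, On x l → On y l → (lam l x y = 0 ↔ x = y)) ∧
  (∀ x y z r : Pt F, On x l → On y l → On z l → On r l →
     lam l y z * lam l x r + lam l z x * lam l y r + lam l x y * lam l z r = 0)

/-- CNT (from BAS): counting.  With t_i lines meeting S in i points: sum t_i = q^2 + q + 1,
sum i t_i = (q + 1)^2 (pairs point of S, line through it), sum i (i - 1) t_i = (q + 1) q (ordered
pairs of distinct points of S, exactly one line each).  Hence
sum (i - 1)(i - 2) t_i = (q+1)q - 2 (q+1)^2 + 2 (q^2+q+1) = q^2 - q, and the left side is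
2 t_0 + 2 sum_{i ≥ 3} binom(i-1, 2) t_i. -/
def S_CNT : Prop := ∀ (F : Type) [Field F] [Fintype F] (S : Finset (Pt F)),
  S.card = Fintype.card F + 1 →
  2 * (u0 S + wt S) = Fintype.card F * (Fintype.card F - 1)

/-- UNI (pure polynomials in one variable).  Proof: if H = 0 all Q c = 0.  Else the polynomials
(X - c)^(3 (k c - 1)) are pairwise coprime, so H = H' * prod_c (X - c)^(3 (k c - 1)) (natural
subtraction).  Put G = H' * prod_{c : k c = 0} (X - c)^3.  As sum_{k c ≥ 1} (k c - 1) =
q - #{k ≥ 1} = #{k = 0}, natDegree G = natDegree H ≤ q - 4 < q - 1, so sum_{c in F} G(c) = 0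
(FiniteField.sum_pow_lt_card_sub_one).  If k c = 0 then G(c) = 0.  If k c ≥ 1 then
Q c = H' prod_{b ≠ c} (X - b)^(3 (k b - 1)), so
G(c) * (prod_{b ≠ c} (c - b)^(k b))^3 = (Q c)(c) * (prod_{b ≠ c} (c - b))^3 = - (Q c)(c), since
prod_{b ≠ c} (c - b) = -1 (FiniteField.prod_univ_units_id_eq_neg_one / Wilson). -/
def S_UNI : Prop := ∀ (F : Type) [Field F] [Fintype F] (k : F → ℕ) (H : F[X]) (Q : F → F[X]),
  ∑ c, k c = Fintype.card F → H.natDegree + 4 ≤ Fintype.card F →
  (∀ c, H = (X - C c) ^ (3 * (k c - 1)) * Q c) →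
  ∑ c ∈ Finset.univ.filter (fun c => k c ≠ 0),
    (Q c).eval c / (∏ b ∈ Finset.univ.erase c, (c - b) ^ k b) ^ 3 = 0

/-- PAR (from BAS): the pencil of x.  There are q + 1 lines through x and only q other points of
S, each on exactly one of them, so some line m through x has no other point of S.  Let t = m.rep;
x.rep^⊥ has dimension 2, take e0 in it independent of t; e0 × t is a nonzero multiple of x.rep,
scale e0 to get e × t = x.rep.  g c = mk (e + c t). -/
def S_PAR : Prop := ∀ (F : Type) [Field F] [Fintype F] (S : Finset (Pt F)) (x : Pt F),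
  S.card = Fintype.card F + 1 → x ∈ S →
  ∃ (e t : Fin 3 → F) (g : F → Pt F) (m : Pt F),
    x.rep ⬝ᵥ e = 0 ∧ x.rep ⬝ᵥ t = 0 ∧ crossProduct e t = x.rep ∧
    (∀ s ∈ S, s ≠ x → s.rep ⬝ᵥ t ≠ 0) ∧
    (∀ c, ∃ r : F, r ≠ 0 ∧ (g c).rep = r • (e + c • t)) ∧
    (∀ c c', g c = g c' → c = c') ∧
    (∀ l, On x l ↔ (l = m ∨ ∃ c, l = g c)) ∧
    (∀ c, g c ≠ m) ∧ (∀ s ∈ S, On s m → s = x)

/-- EVA (from LAM): with u = e + c t, l.rep = r u: for p not on l, p.rep ⬝ l.rep = r (p.rep ⬝ u);
for y on l: x.rep × y.rep = (u × t) × y.rep = (u·y) t - (t·y) u = - (t·y) u, so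
lam l x y = - r⁻¹ (y.rep ⬝ t).  With i = deg S l the exponent of r in W is
(q - 4 - psi) - psi - 3 (q + 1 - i) + 3 (i - 1) = - 2 (q - 1) for psi = 3 i - 6, and r^(q-1) = 1;
the sign is (-1)^(psi - 3 (i - 1)) = -1. -/
def S_EVA : Prop := ∀ (F : Type) [Field F] [Fintype F] (S : Finset (Pt F))
  (P : Multiset (Pt F)) (x l : Pt F) (e t : Fin 3 → F) (c r : F),
  S.card = Fintype.card F + 1 → P.card + 4 = Fintype.card F → x ∈ S →
  x.rep ⬝ᵥ e = 0 → x.rep ⬝ᵥ t = 0 → crossProduct e t = x.rep →
  (∀ s ∈ S, s ≠ x → s.rep ⬝ᵥ t ≠ 0) → r ≠ 0 → l.rep = r • (e + c • t) →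
  2 ≤ deg S l → psi P l = 3 * (deg S l - 2) →
  W S P l x = - (((P.filter (fun p => ¬ On p l)).map (fun p => p.rep ⬝ᵥ (e + c • t))).prod
    * ((P.filter (fun p => On p l)).map (fun p => p.rep ⬝ᵥ t)).prod
    / ((∏ s ∈ S.filter (fun s => ¬ On s l), s.rep ⬝ᵥ (e + c • t)) ^ 3
        * (∏ y ∈ (meet S l).erase x, y.rep ⬝ᵥ t) ^ 3))

/-- PEN (from BAS, UNI, PAR, EVA): the pencil identity.  Take e, t, g, m from PAR; for s in S,
s ≠ x let t_s = - (s.rep ⬝ e) / (s.rep ⬝ t): the only c with s on g c.  UNI with
k c = deg S (g c) - 1 = #{s in S, s ≠ x, t_s = c} (sum = q),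
H = prod_{p in P} (C (p.rep ⬝ e) + C (p.rep ⬝ t) X), natDegree ≤ card P = q - 4, and
Q c = (X - c)^(psi P (g c) - 3 (k c - 1)) * prod_{p in P on g c} C (p.rep ⬝ t)
      * prod_{p in P not on g c} (C (p.rep ⬝ e) + C (p.rep ⬝ t) X)
(for p on g c: p.rep ⬝ e = - c (p.rep ⬝ t)).
prod_{b ≠ c} (c - b)^(k b) = prod_{s in S not on g c} (s.rep ⬝ (e + c t)) / (s.rep ⬝ t).
With kappa = prod_{s ≠ x} (s.rep ⬝ t) the summand of UNI at c is - kappa^3 val S P (g c) x (EVA if
psi is exactly 3 (deg - 2), and 0 = 0 if psi is larger).  val S P m x = 0 as deg S m = 1. -/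
def S_PEN : Prop := ∀ (F : Type) [Field F] [Fintype F] (S : Finset (Pt F))
  (P : Multiset (Pt F)) (x : Pt F),
  S.card = Fintype.card F + 1 → P.card + 4 = Fintype.card F → x ∈ S → x ∉ P →
  (∀ l, On x l → 3 * (deg S l - 2) ≤ psi P l) →
  ∑ l ∈ Finset.univ.filter (fun l => On x l), val S P l x = 0

/-- BIS (from LAM): for a line with exactly two points x, y of S: val is 0 unless psi P l = 0, and
then the two weights differ only in lam l x y ^ 3 against lam l y x ^ 3 = - lam l x y ^ 3. -/
def S_BIS : Prop := ∀ (F : Type) [Field F] [Fintype F] (S : Finset (Pt F))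
  (P : Multiset (Pt F)) (l : Pt F), deg S l = 2 → ∑ x ∈ meet S l, val S P l x = 0

/-- TOT (from BAS, LAM, PEN, BIS).  First pad P by copies of a point not on M to get
card P = q - 4 (nothing changes on M, psi only grows elsewhere).  Sum val S P l x over all pairs
(x in S, l through x).  For fixed x it is 0: if x in P every W S P l x has the factor lam l x x = 0
(when x on l), else PEN applies (for l ≠ M with at least three points the second alternative holds,
as x is not in P).  For fixed l it is 0 if deg S l ≤ 1 (definition), deg S l = 2 (BIS), or l ≠ M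
with deg ≥ 3 (either all x in P, or psi is too large).  So the sum at l = M is 0; cancel the
nonzero factors which do not depend on x. -/
def S_TOT : Prop := ∀ (F : Type) [Field F] [Fintype F] (S : Finset (Pt F))
  (P : Multiset (Pt F)) (M : Pt F),
  S.card = Fintype.card F + 1 → P.card + 4 ≤ Fintype.card F →
  3 ≤ deg S M → psi P M = 3 * (deg S M - 2) →
  (∀ l, l ≠ M → 3 ≤ deg S l → (∀ x ∈ meet S l, x ∈ P) ∨ 3 * (deg S l - 2) < psi P l) →
  ∑ x ∈ meet S M, ((P.filter (fun p => On p M)).map (fun p => lam M x p)).prod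
    / (∏ y ∈ (meet S M).erase x, lam M x y) ^ 3 = 0

/-- KIL (from LAM, TOT): if all points of S on M except x0 are in P and x0 is not, only the term
x = x0 of TOT is nonzero (lam M x x = 0, and lam M x y ≠ 0 for x ≠ y on M). -/
def S_KIL : Prop := ∀ (F : Type) [Field F] [Fintype F] (S : Finset (Pt F))
  (P : Multiset (Pt F)) (M x0 : Pt F),
  S.card = Fintype.card F + 1 → P.card + 4 ≤ Fintype.card F →
  3 ≤ deg S M → psi P M = 3 * (deg S M - 2) →
  (∀ l, l ≠ M → 3 ≤ deg S l → (∀ x ∈ meet S l, x ∈ P) ∨ 3 * (deg S l - 2) < psi P l) →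
  x0 ∈ meet S M → x0 ∉ P → (∀ y ∈ meet S M, y ≠ x0 → y ∈ P) → False

/-- SHF (Hall): every class has at most half of the elements; then some permutation moves every
element to another class.  Hall's condition (Finset.all_card_le_biUnion_card_iff_exists_injective)
for the sets {y : kap y ≠ kap x}: a set A inside one class has neighbours the complement of the
class, at least as large as the class; if A meets two classes everything is a neighbour. -/
def S_SHF : Prop := ∀ (X Y : Type) [Fintype X] (kap : X → Y),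
  (∀ y, 2 * (Finset.univ.filter (fun x => kap x = y)).card ≤ Fintype.card X) →
  ∃ sig : Equiv.Perm X, ∀ x, kap (sig x) ≠ kap x

/-- POP (from BAS): take a point R1 with the largest number N of bad lines through it and M bad
not through R1.  For R on M, let a be the number of other bad lines through R, a + 1 ≤ N.  At most
one of the N bad lines through R1 passes through R (R ≠ R1), so at least N - 1 ≥ a bad lines other
than M miss R. -/
def S_POP : Prop := ∀ (F : Type) [Field F] [Fintype F] (S : Finset (Pt F)),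
  (∀ R : Pt F, ∃ l ∈ bad S, ¬ On R l) →
  ∃ M ∈ bad S, ∀ R, On R M →
    2 * (((bad S).erase M).filter (fun l => On R l)).card ≤ ((bad S).erase M).card

/-- NCV (from BAS, KIL, SHF, POP): the bad lines are not all concurrent.  Take M from POP,
i = deg S M, x0, y1 distinct points of meet S M.  On X = bad lines other than M let kap l be the
point M ∩ l, sig from SHF, T l = l ∩ sig l: not on M, since kap l ≠ kap (sig l).  Let
c l = binom(deg S l - 1, 2) ≥ 1 and
P = (meet S M minus x0) + (2 i - 5 copies of y1) + sum_{l in X} (c l + c (sig l)) copies of T l.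
card P = 3 (i - 2) + 2 sum_{l in X} c l ≤ 2 c M + 1 + 2 sum_X c l = 2 wt S + 1
(3 (i-2) ≤ (i-1)(i-2) + 1 for i ≥ 3).  psi P M = 3 (i - 2).  For l in X the members T l (index l) and
T (sig⁻¹ l) (index sig⁻¹ l ≠ l) lie on l, so psi P l ≥ 2 c l + c (sig l) + c (sig⁻¹ l) ≥ 2 c l + 2
= (j-1)(j-2) + 2 ≥ 3 (j - 2) + 1 with j = deg S l, as (j - 3)^2 ≥ 0.  KIL gives the contradiction. -/
def S_NCV : Prop := ∀ (F : Type) [Field F] [Fintype F] (S : Finset (Pt F)),
  S.card = Fintype.card F + 1 → (∀ R : Pt F, ∃ l ∈ bad S, ¬ On R l) →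
  ¬ (2 * wt S + 5 ≤ Fintype.card F)

/-- CCA (from BAS, KIL): all bad lines pass through a point R of S.  M any bad line, i = deg S M,
x0 ≠ R in meet S M; P = (meet S M minus x0) + (2 i - 5 copies of R) + sum over the other bad lines
of (meet S l minus R).  These other points are not on M.  card P = 3 (i - 2) + sum (deg S l - 1)
≤ 2 wt S + 1 (j - 1 ≤ (j-1)(j-2)).  All points of S on the other bad lines are in P.  KIL. -/
def S_CCA : Prop := ∀ (F : Type) [Field F] [Fintype F] (S : Finset (Pt F)) (R : Pt F),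
  S.card = Fintype.card F + 1 → R ∈ S → (bad S).Nonempty → (∀ l ∈ bad S, On R l) →
  ¬ (2 * wt S + 5 ≤ Fintype.card F)

/-- CCB (from BAS, KIL): all bad lines pass through a point R not in S, and some M has i ≥ 4 points
of S.  x0 in meet S M; P = (meet S M minus x0) + (2 i - 5 ≥ 3 copies of R) + for each other bad
line l: if deg S l = 3 two points of meet S l (then psi P l ≥ 3 + 2 > 3), if j = deg S l ≥ 4 all of
meet S l (cost j ≤ (j-1)(j-2)).  card P ≤ 3 (i - 2) + 2 sum c l ≤ 2 wt S + 1.  KIL. -/
def S_CCB : Prop := ∀ (F : Type) [Field F] [Fintype F] (S : Finset (Pt F)) (R M : Pt F),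
  S.card = Fintype.card F + 1 → R ∉ S → (∀ l ∈ bad S, On R l) → M ∈ bad S → 4 ≤ deg S M →
  ¬ (2 * wt S + 5 ≤ Fintype.card F)

/-- CCC (from BAS, LAM, TOT): characteristic not 3, all bad lines have exactly three points of S and
pass through R not in S.  M bad, P = 3 copies of R + one point of meet S l for each other bad line l
(psi P l = 4 > 3, psi P M = 3), card P ≤ 2 wt S + 1 as wt S = number of bad lines.  With
meet S M = {x, y, z}, a = lam y z * lam x R, b = lam z x * lam y R, c = lam x y * lam z R (all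
lam M), a + b + c = 0 by LAM, and TOT times (lam x y * lam y z * lam x z)^3 says
a^3 + b^3 + c^3 = 0; but a^3 + b^3 + c^3 = 3 a b c ≠ 0. -/
def S_CCC : Prop := ∀ (F : Type) [Field F] [Fintype F] (S : Finset (Pt F)) (R : Pt F),
  (3 : F) ≠ 0 → S.card = Fintype.card F + 1 → R ∉ S → (bad S).Nonempty →
  (∀ l ∈ bad S, On R l) → (∀ l ∈ bad S, deg S l = 3) → ¬ (2 * wt S + 5 ≤ Fintype.card F)

/-- CCD (from BAS, LAM, TOT): all bad lines have exactly three points of S and pass through R not
in S.  P = 2 copies of R + x + two points of meet S l for each other bad line l (psi P l = 4,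
psi P M = 3, card P = 2 wt S + 1).  TOT with meet S M = {x, y, z}: the x-term is 0 (lam x x = 0),
so lam(y,R)^2 lam(y,x) / (lam(y,x) lam(y,z))^3 + lam(z,R)^2 lam(z,x) / (lam(z,x) lam(z,y))^3 = 0,
i.e. b^2 = c^2 with b = lam z x * lam y R, c = lam x y * lam z R.  b = -c would give
lam y z * lam x R = 0 by LAM, impossible.  So b = c. -/
def S_CCD : Prop := ∀ (F : Type) [Field F] [Fintype F] (S : Finset (Pt F)) (R : Pt F),
  S.card = Fintype.card F + 1 → R ∉ S →
  (∀ l ∈ bad S, On R l) → (∀ l ∈ bad S, deg S l = 3) → 2 * wt S + 5 ≤ Fintype.card F →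
  ∀ M ∈ bad S, ∀ x ∈ meet S M, ∀ y ∈ meet S M, ∀ z ∈ meet S M, x ≠ y → y ≠ z → x ≠ z →
    lam M z x * lam M y R = lam M x y * lam M z R

/-- the nonvertical lines of the affine plane have at most two points of S: no third point z on
the line through x, y with x.1 ≠ y.1 -/
def NoThree {F : Type} [Field F] (S : Finset (F × F)) : Prop :=
  ∀ x ∈ S, ∀ y ∈ S, ∀ z ∈ S, x.1 ≠ y.1 → z ≠ x → z ≠ y →
    (z.2 - x.2) * (y.1 - x.1) ≠ (y.2 - x.2) * (z.1 - x.1)

/-- the points of S on the vertical line with first coordinate a -/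
noncomputable def fib {F : Type} [Field F] (S : Finset (F × F)) (a : F) : Finset (F × F) :=
  S.filter (fun s => s.1 = a)

/-- leading coefficient of the quadratic polynomial attached to x (0 if the vertical line of x does
not have three points) -/
noncomputable def lead {F : Type} [Field F] (S : Finset (F × F)) (x : F × F) : F :=
  if (fib S x.1).card = 3 then
    1 / ((∏ s ∈ (fib S x.1).erase x, (x.2 - s.2)) *
      ∏ s ∈ S.filter (fun s => s.1 ≠ x.1), (s.1 - x.1))
  else 0

/-- AFA (univariate polynomials): for x in S let L_x(m) = prod over s in S with s.1 ≠ x.1 of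
(m (s.1 - x.1) - (s.2 - x.2)); its roots are distinct (NoThree), there are q + 1 - #fib of them, so
L_x divides m^q - m: m^q - m = L_x(m) V_x f_x(m), V_x = prod over (fib S x.1).erase x of
(x.2 - s.2) ≠ 0, f_x of degree #fib - 1 ≤ 2 with leading coefficient lead S x if #fib = 3; so
f_x = lead S x m^2 + bet x m + gam x.  For y in S, y.1 ≠ x.1, m0 = (y.2 - x.2)/(y.1 - x.1):
differentiate at m0: -1 = (y.1 - x.1) prod_{s ≠ x, y} (m0 (s.1 - x.1) - (s.2 - x.2)) f_x(m0) (the
factors of V_x are those with s.1 = x.1).  The product is symmetric in x, y since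
m0 y.1 - y.2 = m0 x.1 - x.2.  So f_x(m0) + f_y(m0) = 0; multiply by (y.1 - x.1)^2. -/
def S_AFA : Prop := ∀ (F : Type) [Field F] [Fintype F] (S : Finset (F × F)),
  S.card = Fintype.card F + 1 → (∀ a, (fib S a).card ≤ 3) → NoThree S →
  ∃ bet gam : F × F → F, ∀ x ∈ S, ∀ y ∈ S, x.1 ≠ y.1 →
    (lead S x + lead S y) * (y.2 - x.2) ^ 2 + (bet x + bet y) * ((y.2 - x.2) * (y.1 - x.1))
      + (gam x + gam y) * (y.1 - x.1) ^ 2 = 0

/-- AFB (pure algebra in characteristic 3, linear_combination).  E(eps, del) = 0 for the nine pairs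
(eps, del) in {0, 1, -1}^2.  (1) sum of del E(eps, del); (2) sum of eps del E; (3) sum over eps of
E(eps, 0), using (1). -/
def S_AFB : Prop := ∀ (F : Type) [Field F], (3 : F) = 0 →
  ∀ (A A' c c' D h : F) (bet bet' gam gam' : F → F), c ≠ 0 → c' ≠ 0 → D ≠ 0 →
  (∀ eps ∈ ({0, 1, -1} : Set F), ∀ del ∈ ({0, 1, -1} : Set F),
    (A + A') * (h + del * c' - eps * c) ^ 2
      + (bet eps + bet' del) * ((h + del * c' - eps * c) * D)
      + (gam eps + gam' del) * D ^ 2 = 0) →
  bet 0 + bet 1 + bet (-1) = 0 ∧
  (A + A') * (c * c') + ((bet (-1) - bet 1) * c' - (bet' (-1) - bet' 1) * c) * D = 0 ∧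
  (A + A') * c ^ 2 - (bet (-1) - bet 1) * c * D - (gam 0 + gam 1 + gam (-1)) * D ^ 2 = 0

/-- AFC (pure algebra in characteristic 3): the same for one further point: sum over eps. -/
def S_AFC : Prop := ∀ (F : Type) [Field F], (3 : F) = 0 →
  ∀ (A c D h be ge : F) (bet gam : F → F),
  (∀ eps ∈ ({0, 1, -1} : Set F),
    A * (h - eps * c) ^ 2 + (bet eps + be) * ((h - eps * c) * D) + (gam eps + ge) * D ^ 2 = 0) →
  bet 0 + bet 1 + bet (-1) = 0 →
  A * c ^ 2 - (bet (-1) - bet 1) * c * D - (gam 0 + gam 1 + gam (-1)) * D ^ 2 = 0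

/-- AFD (pure algebra in characteristic 3): fix a0 in B, subtract a0 and G a0:
A l = G_l a_l - A 0, and for other l ≠ k: G_l a_k + G_k a_l = 2 A 0.  For three others
G_l (a_k - a_m) + a_l (G_k - G_m) = 0.  With four others all slopes (G_k - G_m)/(a_k - a_m) equal
-G_l/a_l for every l not k, m; so all G_l/a_l are equal to some s, s = -s, s = 0, G_l = 0,
2 A 0 = 0. -/
def S_AFD : Prop := ∀ (F : Type) [Field F], (3 : F) = 0 →
  ∀ (B : Finset F) (A G : F → F), 5 ≤ B.card → (∀ a ∈ B, A a ≠ 0) →
  (∀ a ∈ B, ∀ a' ∈ B, a ≠ a' → A a + A a' = (G a - G a') * (a - a')) → False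

/-- the vertical lines over B carry three points of S in arithmetic progression, all other vertical
lines at most two, no other line has three points of S, q + 1 points in all -/
def Special {F : Type} [Field F] [Fintype F] (S : Finset (F × F)) (B : Finset F)
    (b c : F → F) : Prop :=
  (3 : F) = 0 ∧ S.card = Fintype.card F + 1 ∧ 2 ≤ B.card ∧ 2 * B.card + 5 ≤ Fintype.card F ∧
  (∀ a ∈ B, c a ≠ 0 ∧ fib S a = {(a, b a), (a, b a + c a), (a, b a - c a)}) ∧
  (∀ a, a ∉ B → (fib S a).card ≤ 2) ∧ NoThree S

/-- the common value of lead S on the vertical line over a in B -/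
noncomputable def Al {F : Type} [Field F] (S : Finset (F × F)) (c : F → F) (a : F) : F :=
  - 1 / (c a ^ 2 * ∏ s ∈ S.filter (fun s => s.1 ≠ a), (s.1 - a))

/-- AFE (from AFA, AFB, AFC).  For a in B the three values of lead S on fib S a are Al S c a (the
product of the differences to the two others is (c)(-c), as 3 = 0).  With bet, gam of AFA put
u a = (bet (a, b a - c a) - bet (a, b a + c a)) * c a and v a = sum of gam over fib S a.
(1) is AFB (2) divided by c a c a'; (2) AFB (3); (3) AFC (the sum of bet over fib S a is 0 by AFB (1)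
as B has another member). -/
def S_AFE : Prop := ∀ (F : Type) [Field F] [Fintype F] (S : Finset (F × F)) (B : Finset F)
  (b c : F → F), Special S B b c →
  ∃ u v : F → F, (∀ a ∈ B, Al S c a ≠ 0) ∧
    (∀ a ∈ B, ∀ a' ∈ B, a ≠ a' →
      Al S c a + Al S c a' = (u a / c a ^ 2 - u a' / c a' ^ 2) * (a - a')) ∧
    (∀ a ∈ B, ∀ a' ∈ B, a ≠ a' →
      (Al S c a + Al S c a') * c a ^ 2 - u a * (a' - a) - v a * (a' - a) ^ 2 = 0) ∧
    (∀ a ∈ B, ∀ s ∈ S, s.1 ∉ B →
      Al S c a * c a ^ 2 - u a * (s.1 - a) - v a * (s.1 - a) ^ 2 = 0)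

/-- AFF (from AFD, AFE): the order is 9 and B has two elements.  For a in B the first coordinates of the
points of S outside the lines over B are roots of a nonzero polynomial of degree ≤ 2 (constant term
Al c^2 ≠ 0), so they lie on at most two vertical lines, each with at most two points:
q + 1 - 3 #B ≤ 4.  #B ≥ 5 contradicts AFD (G a = u a / c a ^ 2).  So #B ≤ 4, q ≤ 15, q is a power
of 3 (FiniteField.card) and q ≥ 9, so q = 9, #B = 2, and there are exactly 4 other points, on
exactly two vertical lines g ≠ g', two on each. -/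
def S_AFF : Prop := ∀ (F : Type) [Field F] [Fintype F] (S : Finset (F × F)) (B : Finset F)
  (b c : F → F), Special S B b c →
  Fintype.card F = 9 ∧ ∃ a a' g g' : F, a ≠ a' ∧ B = {a, a'} ∧ g ≠ g' ∧ g ∉ B ∧ g' ∉ B ∧
    (fib S g).card = 2 ∧ (fib S g').card = 2

/-- AFG (geometry for q = 9): a point s of S over g is not collinear with a point over a and a point
over a'.  The line through (a, b + eps c) and (a', b' + del c') meets the line over g in the point
with second coordinate ((a' - g)(b + eps c) + (g - a)(b' + del c'))/(a' - a).  If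
(eps, del) ↦ eps (a' - g) c + del (g - a) c' were injective on F_3 × F_3 it would be onto F (nine
elements), so s would be on such a line.  Hence eps (a' - g) c + del (g - a) c' = 0 for some
(eps, del) ≠ 0, both are then nonzero, and ((a' - g) c)^2 = ((g - a) c')^2, more precisely
(a' - g) c = ± (g - a) c'. -/
def S_AFG : Prop := ∀ (F : Type) [Field F] [Fintype F] (S : Finset (F × F)) (B : Finset F)
  (b c : F → F), Special S B b c → Fintype.card F = 9 → ∀ a a' g : F, a ≠ a' → a ∈ B → a' ∈ B →
  g ∉ B → (fib S g).Nonempty →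
  (a' - g) * c a = (g - a) * c a' ∨ (a' - g) * c a = - ((g - a) * c a')

/-- AFH (from AFE, AFF, AFG): contradiction.  q = 9, a, a', g, g' from AFF; G = (g-a)(g'-a),
G' = (g-a')(g'-a').  AFG for g and g' (the same sign would give g = g'): G' c^2 = - G c'^2.
prod_{s.1 ≠ a} (s.1 - a) = (a'-a)^3 G^2 and for a': (a-a')^3 G'^2.  From AFE (3) the quadratic
polynomial Al c^2 - u D - v D^2 vanishes at D = g - a, g' - a, so it is -v (D-(g-a))(D-(g'-a)),
Al a c^2 = - v G; with AFE (2): - v G' = - Al a' c^2 (D = a' - a, (a'-g)(a'-g') = G').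
So Al a G' = - Al a' G.  Insert Al a = -1/(c^2 (a'-a)^3 G^2), Al a' = 1/(c'^2 (a'-a)^3 G'^2):
c'^2 G'^3 = c^2 G^3.  With G'/G = - c'^2/c^2: c'^2 (-c'^2/c^2)^3 = c^2, so (c'/c)^8 = -1; but
x^8 = 1 in a field with nine elements, and 2 ≠ 0. -/
def S_AFH : Prop := ∀ (F : Type) [Field F] [Fintype F] (S : Finset (F × F)) (B : Finset F)
  (b c : F → F), ¬ Special S B b c

/-- CRD: affine coordinates such that R is the vertical point at infinity and n the line at
infinity.  Choose m ≠ n through R and a vector y with m.rep, y, n.rep independent,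
phi p = ((p.rep ⬝ m.rep)/(p.rep ⬝ n.rep), (p.rep ⬝ y)/(p.rep ⬝ n.rep)).  Three points off n are
collinear iff the determinant of (a, b, 1) vanishes.  Two points off n are on a line with R iff
their first coordinates agree.  On a line l ≠ n through R, Binet-Cauchy (cross_dot_cross):
lam l x y * (l.rep ⬝ (y × n.rep)) = (x.rep ⬝ y)(y.rep ⬝ n.rep) - ..., so
lam l x y = kap Z_x Z_y (b_x - b_y), lam l x R = kap' Z_x. -/
def S_CRD : Prop := ∀ (F : Type) [Field F] [Fintype F] (R n : Pt F), On R n →
  ∃ phi : Pt F → F × F,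
    (∀ x y : Pt F, ¬ On x n → ¬ On y n → phi x = phi y → x = y) ∧
    (∀ x y z : Pt F, ¬ On x n → ¬ On y n → ¬ On z n →
      ((∃ l : Pt F, On x l ∧ On y l ∧ On z l) ↔
        ((phi z).2 - (phi x).2) * ((phi y).1 - (phi x).1)
          = ((phi y).2 - (phi x).2) * ((phi z).1 - (phi x).1))) ∧
    (∀ x y : Pt F, ¬ On x n → ¬ On y n →
      ((phi x).1 = (phi y).1 ↔ ∃ l : Pt F, On R l ∧ On x l ∧ On y l)) ∧
    (∀ l x y z : Pt F, On R l → On x l → On y l → On z l → ¬ On x n → ¬ On y n → ¬ On z n →
      lam l z x * lam l y R = lam l x y * lam l z R →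
      (phi z).2 - (phi x).2 = (phi x).2 - (phi y).2)

/-- TRF (from BAS, CRD, AFH, CCD): characteristic 3, all bad lines have exactly three points of S and
pass through R not in S.  If only one bad line: it also passes through a point of S on it, CCA.
Otherwise: some line n through R has no point of S (q + 1 lines through R, each point of S on one of
them, a bad line takes three).  S' = image of S under phi of CRD (injective on S), B = the first
coordinates of the bad lines, b a and c a from the three points x, y, z over a: by CCD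
b_z - b_x = b_x - b_y = c.  No other line has three points of S.  Then Special S' B b c. -/
def S_TRF : Prop := ∀ (F : Type) [Field F] [Fintype F] (S : Finset (Pt F)) (R : Pt F),
  (3 : F) = 0 → S.card = Fintype.card F + 1 → R ∉ S → (bad S).Nonempty →
  (∀ l ∈ bad S, On R l) → (∀ l ∈ bad S, deg S l = 3) → ¬ (2 * wt S + 5 ≤ Fintype.card F)

/-- LOW (from NCV, CCA, CCB, CCC, TRF): the lower bound for wt: if wt S ≠ 0 there is a bad line; in
all cases 2 wt S + 5 ≤ q is false, and q is odd. -/
def S_LOW : Prop := ∀ (F : Type) [Field F] [Fintype F] (S : Finset (Pt F)),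
  Odd (Fintype.card F) → S.card = Fintype.card F + 1 → wt S ≠ 0 →
  Fintype.card F ≤ 2 * wt S + 3

/-- EXA: the points (x, x^2, 1), x in F, and the point Q = (0, -1, 1).  A line
contains at most two points of the parabola; the lines with three points are exactly the lines
through Q and (x, x^2), (1/x, 1/x^2) with x ≠ 0, 1, -1 (slope x + 1/x): (q - 3)/2 lines.  (Count:
the bad lines correspond to the pairs {x, 1/x}, x in F minus {0, 1, -1}.) -/
def S_EXA : Prop := ∀ (F : Type) [Field F] [Fintype F], Odd (Fintype.card F) →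
  ∃ S : Finset (Pt F), S.card = Fintype.card F + 1 ∧ 2 * wt S + 3 = Fintype.card F

/-- EXT (from BAS): q = 3, three points of a line and one point off it: wt = 1. -/
def S_EXT : Prop := ∀ (F : Type) [Field F] [Fintype F], Fintype.card F = 3 →
  ∃ S : Finset (Pt F), S.card = 4 ∧ wt S = 1

/-- FIN (from CNT, LOW, EXA, EXT): the answer.  U(3) = 2 and U(q) = (q^2 - 2q + 3)/2 for q ≥ 5. -/
def S_FIN : Prop := ∀ (F : Type) [Field F] [Fintype F], Odd (Fintype.card F) →
  IsGreatest {n : ℕ | ∃ S : Finset (Pt F), S.card = Fintype.card F + 1 ∧ u0 S = n ∧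
      n < Fintype.card F * (Fintype.card F - 1) / 2}
    (if Fintype.card F = 3 then 2 else (Fintype.card F ^ 2 - 2 * Fintype.card F + 3) / 2)

end Pool.Agent.L7h89.NH
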